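import Mathlib

open MeasureTheory Measure Metric Set Filter Topology
open scoped RealInnerProductSpace ENNReal NNReal

namespace Pool.Agent.Results.MP_c699aa_gt.FullConvergence

/-- Euclidean space `ℝⁿ`. -/
abbrev Sp (n : ℕ) : Type := EuclideanSpace ℝ (Fin n)

/-- `slice u E x = {t : x + t u ∈ E}`. -/
def slice {n : ℕ} (u : Sp n) (E : Set (Sp n)) (x : Sp n) : Set ℝ := {t | x + t • u ∈ E}

/-- Steiner symmetrization in direction `u`: the set of the points `x' + t u` with `x'` in the
orthogonal projection of `E` onto the hyperplane orthogonal to `u` and `|t|` at most half the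
length of the intersection of `E` with the line through `x'` in direction `u`. -/
def steiner {n : ℕ} (u : Sp n) (E : Set (Sp n)) : Set (Sp n) :=
  {x | ∃ (x' : Sp n) (t : ℝ), (⟪u, x'⟫ : ℝ) = 0 ∧ (∃ s : ℝ, x' + s • u ∈ E) ∧
    |t| ≤ (volume (slice u E x')).toReal / 2 ∧ x = x' + t • u}

variable {n : ℕ}

lemma slice_translate (u : Sp n) (E : Set (Sp n)) (x : Sp n) (t : ℝ) :
    volume (slice u E (x + t • u)) = volume (slice u E x) := by
  have : slice u E (x + t • u) = (fun s => t + s) ⁻¹' slice u E x := by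
    ext s
    simp only [slice, Set.mem_preimage, Set.mem_ofPred_eq]
    rw [add_smul, ← add_assoc]
  rw [this, measure_preimage_add]

lemma slice_subset_bdd {E : Set (Sp n)} {ρ : ℝ} (u : Sp n) (hu : ‖u‖ = 1)
    (hE : E ⊆ closedBall 0 ρ) (x : Sp n) :
    slice u E x ⊆ Icc (-(ρ + ‖x‖)) (ρ + ‖x‖) := by
  intro t ht
  have h1 : ‖x + t • u‖ ≤ ρ := by simpa using hE ht
  have h2 : ‖t • u‖ ≤ ρ + ‖x‖ := by
    have : t • u = (x + t • u) - x := by abel
    rw [this]
    exact (norm_sub_le _ _).trans (by linarith)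
  rw [norm_smul, hu, mul_one, Real.norm_eq_abs] at h2
  exact abs_le.1 h2

lemma slice_finite {E : Set (Sp n)} (hE : IsCompact E) (u : Sp n) (hu : ‖u‖ = 1) (x : Sp n) :
    volume (slice u E x) ≠ ∞ := by
  obtain ⟨ρ, hρ⟩ := hE.isBounded.subset_closedBall 0
  exact ((measure_mono (slice_subset_bdd u hu hρ x)).trans_lt (by simp)).ne

/-- Reformulation of Steiner symmetrization. -/
lemma mem_steiner {E : Set (Sp n)} (hE : IsCompact E) (u : Sp n) (hu : ‖u‖ = 1) (x : Sp n) :
    x ∈ steiner u E ↔ (slice u E x).Nonempty ∧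
      ENNReal.ofReal (2 * |(⟪u, x⟫ : ℝ)|) ≤ volume (slice u E x) := by
  have huu : (⟪u, u⟫ : ℝ) = 1 := by rw [real_inner_self_eq_norm_sq, hu]; norm_num
  constructor
  · rintro ⟨x', t, hx', ⟨s, hs⟩, ht, rfl⟩
    rw [slice_translate]
    refine ⟨⟨s - t, ?_⟩, ?_⟩
    · simp only [slice, Set.mem_ofPred_eq]
      rw [add_assoc, ← add_smul, add_sub_cancel]
      exact hs
    · rw [inner_add_right, inner_smul_right, hx', huu, zero_add, mul_one]
      rw [ENNReal.ofReal_le_iff_le_toReal (slice_finite hE u hu x')]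
      linarith
  · rintro ⟨⟨s, hs⟩, h⟩
    refine ⟨x - (⟪u, x⟫ : ℝ) • u, ⟪u, x⟫, ?_, ⟨⟪u, x⟫ + s, ?_⟩, ?_, ?_⟩
    · rw [inner_sub_right, inner_smul_right, huu]; ring
    · rw [add_smul, ← add_assoc, sub_add_cancel]
      exact hs
    · have h1 : volume (slice u E (x - (⟪u, x⟫ : ℝ) • u)) = volume (slice u E x) := by
        rw [sub_eq_add_neg, ← neg_smul, slice_translate]
      rw [h1]
      rw [ENNReal.ofReal_le_iff_le_toReal (slice_finite hE u hu x)] at h
      linarith
    · simp

/-- Upper semicontinuity of the slice length along sequences. -/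
lemma limsup_slice {E : Set (Sp n)} (hE : IsCompact E) (u : Sp n) (hu : ‖u‖ = 1)
    (y : ℕ → Sp n) (x : Sp n) (hy : Tendsto y atTop (𝓝 x)) :
    limsup (fun k => volume (slice u E (y k))) atTop ≤ volume (slice u E x) := by
  obtain ⟨ρ, hρ⟩ := hE.isBounded.subset_closedBall 0
  obtain ⟨M, hM⟩ := (Metric.isBounded_range_of_tendsto y hy).subset_closedBall 0
  have hMy : ∀ k, ‖y k‖ ≤ M := fun k => by simpa using hM ⟨k, rfl⟩
  have hsm : ∀ z, MeasurableSet (slice u E z) := fun z =>
    (hE.isClosed.preimage (by fun_prop : Continuous fun t : ℝ => z + t • u)).measurableSet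
  have h1 : ∀ z, volume (slice u E z) = ∫⁻ t, (slice u E z).indicator 1 t := fun z => by
    rw [lintegral_indicator_one (hsm z)]
  simp only [h1]
  refine (limsup_lintegral_le ((Icc (-(ρ + M)) (ρ + M)).indicator 1)
    (fun k => measurable_one.indicator (hsm _)) (fun k => ?_) ?_).trans ?_
  · refine Eventually.of_forall fun t => ?_
    apply indicator_le_indicator_of_subset _ (by simp)
    intro s hs
    have := slice_subset_bdd u hu hρ (y k) hs
    have := hMy k
    constructor <;> [skip; skip] <;> simp only [mem_Icc] at * <;> linarith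
  · rw [lintegral_indicator_one measurableSet_Icc]; simp
  · apply lintegral_mono
    intro t
    by_cases ht : t ∈ slice u E x
    · simp only [indicator_of_mem ht, Pi.one_apply]
      refine limsup_le_of_le (by isBoundedDefault) (Eventually.of_forall fun k => ?_)
      exact indicator_le_self' (by simp) _ |>.trans (by simp)
    · simp only [indicator_of_notMem ht]
      have h2 : ∀ᶠ k in atTop, t ∉ slice u E (y k) := by
        have h3 : Tendsto (fun k => y k + t • u) atTop (𝓝 (x + t • u)) := hy.add_const _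
        exact h3.eventually (hE.isClosed.isOpen_compl.mem_nhds ht)
      have h4 : limsup (fun k => (slice u E (y k)).indicator (1 : ℝ → ℝ≥0∞) t) atTop =
          limsup (fun _ : ℕ => (0 : ℝ≥0∞)) atTop := by
        apply limsup_congr
        filter_upwards [h2] with k hk
        exact indicator_of_notMem hk _
      rw [h4]
      simp

lemma steiner_subset_ball {E : Set (Sp n)} (hE : IsCompact E) (u : Sp n) (hu : ‖u‖ = 1) {ρ : ℝ}
    (hρ : E ⊆ closedBall 0 ρ) : steiner u E ⊆ closedBall 0 ρ := by
  intro x hx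
  rw [mem_steiner hE u hu] at hx
  obtain ⟨⟨s, hs⟩, h⟩ := hx
  have huu : (⟪u, u⟫ : ℝ) = 1 := by rw [real_inner_self_eq_norm_sq, hu]; norm_num
  have hexp : ∀ t : ℝ, ‖x + t • u‖ ^ 2 = ‖x‖ ^ 2 - (⟪u, x⟫ : ℝ) ^ 2 + (t + ⟪u, x⟫) ^ 2 := by
    intro t
    rw [← real_inner_self_eq_norm_sq, ← real_inner_self_eq_norm_sq]
    simp only [inner_add_left, inner_add_right, inner_smul_left, inner_smul_right, huu,
      real_inner_comm u x, conj_trivial]
    ring
  have hρ0 : 0 ≤ ρ := by
    have : ‖x + s • u‖ ≤ ρ := by simpa using hρ hs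
    exact (norm_nonneg _).trans this
  set c : ℝ := ρ ^ 2 - ‖x‖ ^ 2 + (⟪u, x⟫ : ℝ) ^ 2 with hc
  have hsl : ∀ t ∈ slice u E x, (t + (⟪u, x⟫ : ℝ)) ^ 2 ≤ c := by
    intro t ht
    have h1 : ‖x + t • u‖ ≤ ρ := by simpa using hρ ht
    have h2 := pow_le_pow_left₀ (norm_nonneg _) h1 2
    rw [hexp] at h2
    rw [hc]; linarith
  have hc0 : 0 ≤ c := (sq_nonneg _).trans (hsl s hs)
  have hsub : slice u E x ⊆ Icc (-(⟪u, x⟫ : ℝ) - √c) (-(⟪u, x⟫ : ℝ) + √c) := by
    intro t ht
    have h1 := Real.abs_le_sqrt (hsl t ht)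
    rw [abs_le] at h1
    constructor <;> linarith [h1.1, h1.2]
  have h2 := h.trans (measure_mono hsub)
  rw [Real.volume_Icc, ENNReal.ofReal_le_ofReal_iff (by nlinarith [Real.sqrt_nonneg c])] at h2
  have h3 : |(⟪u, x⟫ : ℝ)| ≤ √c := by linarith
  have h4 : (⟪u, x⟫ : ℝ) ^ 2 ≤ c := by
    have := pow_le_pow_left₀ (abs_nonneg _) h3 2
    rwa [sq_abs, Real.sq_sqrt hc0] at this
  rw [mem_closedBall_zero_iff]
  have h5 : ‖x‖ ^ 2 ≤ ρ ^ 2 := by rw [hc] at h4; linarith
  exact (pow_le_pow_iff_left₀ (norm_nonneg _) hρ0 two_ne_zero).1 h5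

lemma steiner_compact {E : Set (Sp n)} (hE : IsCompact E) (u : Sp n) (hu : ‖u‖ = 1) :
    IsCompact (steiner u E) := by
  obtain ⟨ρ, hρ⟩ := hE.isBounded.subset_closedBall 0
  have hsub := steiner_subset_ball hE u hu hρ
  refine (isCompact_closedBall (0 : Sp n) ρ).of_isClosed_subset ?_ hsub
  rw [← isSeqClosed_iff_isClosed]
  intro y x hy hyx
  rw [mem_steiner hE u hu]
  have hy' : ∀ k, (slice u E (y k)).Nonempty ∧
      ENNReal.ofReal (2 * |(⟪u, y k⟫ : ℝ)|) ≤ volume (slice u E (y k)) := fun k =>
    (mem_steiner hE u hu _).1 (hy k)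
  constructor
  · choose s hs using fun k => (hy' k).1
    obtain ⟨z, hz, φ, hφ, hφz⟩ := hE.tendsto_subseq (fun k => hs k)
    -- s k = ⟪u, (y k + s k u) - y k⟫
    have huu : (⟪u, u⟫ : ℝ) = 1 := by rw [real_inner_self_eq_norm_sq, hu]; norm_num
    have h1 : Tendsto (fun k => (⟪u, (y (φ k) + s (φ k) • u) - y (φ k)⟫ : ℝ)) atTop
        (𝓝 ⟪u, z - x⟫) :=
      (tendsto_const_nhds (x := u)).inner (hφz.sub (hyx.comp hφ.tendsto_atTop))
    have h2 : ∀ k, (⟪u, (y (φ k) + s (φ k) • u) - y (φ k)⟫ : ℝ) = s (φ k) := by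
      intro k
      rw [add_sub_cancel_left, inner_smul_right, huu, mul_one]
    simp only [h2] at h1
    have h3 : Tendsto (fun k => y (φ k) + s (φ k) • u) atTop (𝓝 (x + (⟪u, z - x⟫ : ℝ) • u)) :=
      (hyx.comp hφ.tendsto_atTop).add (h1.smul_const u)
    have h4 := tendsto_nhds_unique h3 hφz
    refine ⟨⟪u, z - x⟫, ?_⟩
    simp only [slice, Set.mem_ofPred_eq, h4]
    exact hz
  · refine le_trans ?_ (limsup_slice hE u hu y x hyx)
    have h1 : Tendsto (fun k => ENNReal.ofReal (2 * |(⟪u, y k⟫ : ℝ)|)) atTop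
        (𝓝 (ENNReal.ofReal (2 * |(⟪u, x⟫ : ℝ)|))) := by
      apply ENNReal.tendsto_ofReal
      exact ((tendsto_const_nhds (x := u)).inner hyx).abs.const_mul 2
    rw [← h1.limsup_eq]
    exact limsup_le_limsup (Eventually.of_forall fun k => (hy' k).2)
      (by isBoundedDefault) (by isBoundedDefault)


/-- the slab `|⟨u,x⟩| ≤ 1/2` -/
def slab (u : Sp n) : Set (Sp n) := {x | |(⟪u, x⟫ : ℝ)| ≤ 1 / 2}

lemma slab_meas (u : Sp n) : MeasurableSet (slab u) := by
  have : IsClosed (slab u) :=
    isClosed_le ((continuous_const.inner continuous_id).abs) continuous_const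
  exact this.measurableSet

/-- Volume as an integral of slice lengths over the slab. -/
lemma volume_eq_slab (u : Sp n) (hu : ‖u‖ = 1) {A : Set (Sp n)} (hA : MeasurableSet A) :
    volume A = ∫⁻ x in slab u, volume (slice u A x) := by
  have huu : (⟪u, u⟫ : ℝ) = 1 := by rw [real_inner_self_eq_norm_sq, hu]; norm_num
  have hsm : ∀ z, MeasurableSet (slice u A z) := fun z =>
    (by fun_prop : Measurable fun t : ℝ => z + t • u) hA
  have hjoint : Measurable fun p : Sp n × ℝ => p.1 + p.2 • u := by fun_prop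
  have hjoint2 : Measurable fun p : Sp n × ℝ => p.1 - p.2 • u := by fun_prop
  have e1 : ∫⁻ x in slab u, volume (slice u A x) =
      ∫⁻ x : Sp n, ∫⁻ t : ℝ, (slab u).indicator 1 x * A.indicator 1 (x + t • u) := by
    rw [← lintegral_indicator (slab_meas u)]
    apply lintegral_congr
    intro x
    have hmm : Measurable fun t : ℝ => A.indicator (1 : Sp n → ℝ≥0∞) (x + t • u) :=
      (measurable_one.indicator hA).comp (by fun_prop : Measurable fun t : ℝ => x + t • u)
    rw [lintegral_const_mul _ hmm]
    have : ∫⁻ t : ℝ, A.indicator 1 (x + t • u) = volume (slice u A x) := by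
      rw [← lintegral_indicator_one (hsm x)]
      rfl
    rw [this]
    by_cases hx : x ∈ slab u
    · simp [hx]
    · simp [hx]
  rw [e1]
  rw [lintegral_lintegral_swap]
  swap
  · apply Measurable.aemeasurable
    apply Measurable.mul
    · exact (measurable_one.indicator (slab_meas u)).comp measurable_fst
    · exact (measurable_one.indicator hA).comp hjoint
  have e2 : ∀ t : ℝ, ∫⁻ x : Sp n, (slab u).indicator (1 : Sp n → ℝ≥0∞) x *
      A.indicator 1 (x + t • u) =
      ∫⁻ y : Sp n, (slab u).indicator 1 (y - t • u) * A.indicator 1 y := by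
    intro t
    rw [← lintegral_add_right_eq_self
      (fun y : Sp n => (slab u).indicator 1 (y - t • u) * A.indicator 1 y) (t • u)]
    simp only [add_sub_cancel_right]
  simp only [e2]
  rw [lintegral_lintegral_swap]
  swap
  · apply Measurable.aemeasurable
    apply Measurable.mul
    · exact (measurable_one.indicator (slab_meas u)).comp
        (by fun_prop : Measurable fun p : ℝ × Sp n => p.2 - p.1 • u)
    · exact (measurable_one.indicator hA).comp measurable_snd
  rw [← lintegral_indicator_one hA]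
  apply lintegral_congr
  intro y
  have hmm : Measurable fun t : ℝ => (slab u).indicator (1 : Sp n → ℝ≥0∞) (y - t • u) :=
    (measurable_one.indicator (slab_meas u)).comp (by fun_prop : Measurable fun t : ℝ => y - t • u)
  rw [lintegral_mul_const _ hmm]
  have : ∫⁻ t : ℝ, (slab u).indicator (1 : Sp n → ℝ≥0∞) (y - t • u) = 1 := by
    have h1 : ∀ t : ℝ, (slab u).indicator (1 : Sp n → ℝ≥0∞) (y - t • u) =
        (Icc ((⟪u, y⟫ : ℝ) - 1 / 2) ((⟪u, y⟫ : ℝ) + 1 / 2)).indicator 1 t := by
      intro t
      have h2 : y - t • u ∈ slab u ↔ t ∈ Icc ((⟪u, y⟫ : ℝ) - 1 / 2) ((⟪u, y⟫ : ℝ) + 1 / 2) := by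
        simp only [slab, Set.mem_ofPred_eq, inner_sub_right, inner_smul_right, huu, mul_one,
          abs_le, mem_Icc]
        constructor
        · rintro ⟨h1, h2⟩; constructor <;> linarith
        · rintro ⟨h1, h2⟩; constructor <;> linarith
      by_cases h : y - t • u ∈ slab u
      · rw [indicator_of_mem h, indicator_of_mem (h2.1 h)]; rfl
      · rw [indicator_of_notMem h, indicator_of_notMem (fun h' => h (h2.2 h'))]
    simp only [h1]
    rw [lintegral_indicator_one measurableSet_Icc, Real.volume_Icc]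
    norm_num
  rw [this, one_mul]

/-- The slices of the symmetrization. -/
lemma slice_steiner {E : Set (Sp n)} (hE : IsCompact E) (u : Sp n) (hu : ‖u‖ = 1) (x : Sp n) :
    slice u (steiner u E) x = {t | (slice u E x).Nonempty ∧
      2 * |t + (⟪u, x⟫ : ℝ)| ≤ (volume (slice u E x)).toReal} := by
  have huu : (⟪u, u⟫ : ℝ) = 1 := by rw [real_inner_self_eq_norm_sq, hu]; norm_num
  ext t
  have h0 : t ∈ slice u (steiner u E) x ↔ x + t • u ∈ steiner u E := Iff.rfl
  rw [h0, mem_steiner hE u hu, slice_translate, Set.mem_ofPred_eq,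
    ENNReal.ofReal_le_iff_le_toReal (slice_finite hE u hu x), inner_add_right, inner_smul_right,
    huu, mul_one, add_comm (⟪u, x⟫ : ℝ) t]
  refine and_congr_left fun _ => ?_
  constructor
  · rintro ⟨s, hs⟩
    refine ⟨t + s, ?_⟩
    simp only [slice, Set.mem_ofPred_eq] at hs ⊢
    rw [add_smul, ← add_assoc]
    exact hs
  · rintro ⟨s, hs⟩
    refine ⟨s - t, ?_⟩
    simp only [slice, Set.mem_ofPred_eq] at hs ⊢
    rw [add_assoc, ← add_smul, add_sub_cancel]
    exact hs

lemma volume_slice_steiner {E : Set (Sp n)} (hE : IsCompact E) (u : Sp n) (hu : ‖u‖ = 1)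
    (x : Sp n) : volume (slice u (steiner u E) x) = volume (slice u E x) := by
  rw [slice_steiner hE u hu]
  by_cases hne : (slice u E x).Nonempty
  · have : {t : ℝ | (slice u E x).Nonempty ∧
        2 * |t + (⟪u, x⟫ : ℝ)| ≤ (volume (slice u E x)).toReal} =
        Icc (-(⟪u, x⟫ : ℝ) - (volume (slice u E x)).toReal / 2)
          (-(⟪u, x⟫ : ℝ) + (volume (slice u E x)).toReal / 2) := by
      ext t
      simp only [Set.mem_ofPred_eq, mem_Icc, hne, true_and]
      constructor
      · intro h
        have h1 : |t + (⟪u, x⟫ : ℝ)| ≤ (volume (slice u E x)).toReal / 2 := by linarith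
        rw [abs_le] at h1
        constructor <;> linarith [h1.1, h1.2]
      · rintro ⟨h1, h2⟩
        have : |t + (⟪u, x⟫ : ℝ)| ≤ (volume (slice u E x)).toReal / 2 := by
          rw [abs_le]
          constructor <;> linarith
        linarith
    rw [this, Real.volume_Icc]
    have h2 : -(⟪u, x⟫ : ℝ) + (volume (slice u E x)).toReal / 2 -
      (-(⟪u, x⟫ : ℝ) - (volume (slice u E x)).toReal / 2) = (volume (slice u E x)).toReal := by ring
    rw [h2, ENNReal.ofReal_toReal (slice_finite hE u hu x)]
  · rw [Set.not_nonempty_iff_eq_empty] at hne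
    rw [hne]
    simp

lemma volume_steiner {E : Set (Sp n)} (hE : IsCompact E) (u : Sp n) (hu : ‖u‖ = 1) :
    volume (steiner u E) = volume E := by
  rw [volume_eq_slab u hu (steiner_compact hE u hu).measurableSet,
    volume_eq_slab u hu hE.measurableSet]
  apply lintegral_congr
  intro x
  rw [volume_slice_steiner hE u hu]

/-- Symmetrization does not increase the volume of the part of a centred ball not covered. -/
lemma contraction {E : Set (Sp n)} (hE : IsCompact E) (u : Sp n) (hu : ‖u‖ = 1) (r : ℝ) :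
    volume (closedBall 0 r \ steiner u E) ≤ volume (closedBall 0 r \ E) := by
  have hSm := (steiner_compact hE u hu).measurableSet
  rw [volume_eq_slab u hu (measurableSet_closedBall.diff hSm),
    volume_eq_slab u hu (measurableSet_closedBall.diff hE.measurableSet)]
  apply lintegral_mono
  intro x
  simp only
  have huu : (⟪u, u⟫ : ℝ) = 1 := by rw [real_inner_self_eq_norm_sq, hu]; norm_num
  have hexp : ∀ t : ℝ, ‖x + t • u‖ ^ 2 = ‖x‖ ^ 2 - (⟪u, x⟫ : ℝ) ^ 2 + (t + ⟪u, x⟫) ^ 2 := by
    intro t
    rw [← real_inner_self_eq_norm_sq, ← real_inner_self_eq_norm_sq]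
    simp only [inner_add_left, inner_add_right, inner_smul_left, inner_smul_right, huu,
      real_inner_comm u x, conj_trivial]
    ring
  have hd1 : slice u (closedBall 0 r \ steiner u E) x =
      slice u (closedBall 0 r) x \ slice u (steiner u E) x := rfl
  have hd2 : slice u (closedBall 0 r \ E) x = slice u (closedBall 0 r) x \ slice u E x := rfl
  rw [hd1, hd2]
  have hm1 : MeasurableSet (slice u (steiner u E) x) :=
    (by fun_prop : Measurable fun t : ℝ => x + t • u) hSm
  by_cases hsub : slice u (steiner u E) x ⊆ slice u (closedBall 0 r) x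
  · rw [measure_sdiff hsub hm1.nullMeasurableSet (by
      rw [volume_slice_steiner hE u hu]; exact slice_finite hE u hu x),
      volume_slice_steiner hE u hu]
    exact le_measure_sdiff
  · have hsub2 : slice u (closedBall 0 r) x ⊆ slice u (steiner u E) x := by
      rw [Set.not_subset] at hsub
      obtain ⟨t0, ht0, ht0'⟩ := hsub
      rw [slice_steiner hE u hu] at ht0 ⊢
      intro t ht
      refine ⟨ht0.1, le_trans ?_ ht0.2⟩
      have h1 : ‖x + t • u‖ ≤ r := by simpa [slice] using ht
      have h2 : ¬ ‖x + t0 • u‖ ≤ r := by simpa [slice] using ht0'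
      push Not at h2
      have h3 : ‖x + t • u‖ ^ 2 ≤ ‖x + t0 • u‖ ^ 2 :=
        pow_le_pow_left₀ (norm_nonneg _) (h1.trans h2.le) 2
      rw [hexp, hexp] at h3
      have h4 : (t + (⟪u, x⟫ : ℝ)) ^ 2 ≤ (t0 + (⟪u, x⟫ : ℝ)) ^ 2 := by linarith
      have h5 := sq_le_sq.1 h4
      linarith
    rw [Set.sdiff_eq_empty.2 hsub2]
    simp

/-- The iterated symmetrizations `E_0 = E`, `E_{i+1} = S_{u_i} E_i`. -/
def iter (u : ℕ → Sp n) (E : Set (Sp n)) : ℕ → Set (Sp n)
  | 0 => E
  | i + 1 => steiner (u i) (iter u E i)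

lemma steiner_nonempty {E : Set (Sp n)} (u : Sp n) (hu : ‖u‖ = 1) (hne : E.Nonempty) : (steiner u E).Nonempty := by
  obtain ⟨x, hx⟩ := hne
  have huu : (⟪u, u⟫ : ℝ) = 1 := by rw [real_inner_self_eq_norm_sq, hu]; norm_num
  refine ⟨x - (⟪u, x⟫ : ℝ) • u, x - (⟪u, x⟫ : ℝ) • u, 0, ?_, ⟨⟪u, x⟫, by simpa using hx⟩, ?_, by simp⟩
  · rw [inner_sub_right, inner_smul_right, huu]; ring
  · simp only [abs_zero]; positivity

/-- **Full convergence.** If a subsequence of the iterated Steiner symmetrizations of a compact set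
with nonempty interior converges to the centred ball of the same volume in the Hausdorff distance,
then so does the whole sequence. -/
theorem result (n : ℕ) (E : Set (Sp n)) (hE : IsCompact E) (hint : (interior E).Nonempty)
    (u : ℕ → Sp n) (hu : ∀ i, ‖u i‖ = 1) (r : ℝ) (hr : 0 ≤ r)
    (hvol : volume (closedBall (0 : Sp n) r) = volume E)
    (φ : ℕ → ℕ) (_hφ : StrictMono φ)
    (hconv : Tendsto (fun j => hausdorffDist (iter u E (φ j)) (closedBall 0 r)) atTop (𝓝 0)) :
    Tendsto (fun i => hausdorffDist (iter u E i) (closedBall 0 r)) atTop (𝓝 0) := by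
  have hEne : E.Nonempty := hint.mono interior_subset
  have hcomp : ∀ i, IsCompact (iter u E i) := by
    intro i
    induction i with
    | zero => exact hE
    | succ i ih => exact steiner_compact ih (u i) (hu i)
  have hne : ∀ i, (iter u E i).Nonempty := by
    intro i
    induction i with
    | zero => exact hEne
    | succ i ih => exact steiner_nonempty (u i) (hu i) ih
  have hv : ∀ i, volume (iter u E i) = volume (closedBall (0 : Sp n) r) := by
    intro i
    induction i with
    | zero => exact hvol.symm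
    | succ i ih => rw [iter, volume_steiner (hcomp i) (u i) (hu i), ih]
  have hvpos : 0 < volume (closedBall (0 : Sp n) r) := by
    rw [hvol]; exact measure_pos_of_nonempty_interior _ hint
  have hrpos : 0 < r := by
    rcases hr.eq_or_lt with h | h
    · exfalso
      rw [← h, closedBall_zero] at hvpos
      have : Nontrivial (Sp n) := ⟨⟨u 0, 0, by
        intro h0
        have := hu 0
        rw [h0, norm_zero] at this
        norm_num at this⟩⟩
      simp at hvpos
    · exact h
  have hout : ∀ ρ i k, iter u E i ⊆ closedBall 0 ρ → iter u E (i + k) ⊆ closedBall 0 ρ := by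
    intro ρ i k h
    induction k with
    | zero => exact h
    | succ k ih => exact steiner_subset_ball (hcomp _) (u _) (hu _) ih
  have hin : ∀ i k, volume (closedBall 0 r \ iter u E (i + k)) ≤
      volume (closedBall 0 r \ iter u E i) := by
    intro i k
    induction k with
    | zero => exact le_rfl
    | succ k ih => exact (contraction (hcomp _) (u _) (hu _) r).trans ih
  rw [Metric.tendsto_atTop]
  intro ε hε
  set l : ℝ := min (ε / 2) r with hl
  have hlpos : 0 < l := lt_min (by linarith) hrpos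
  have hlr : l ≤ r := min_le_right _ _
  have hlε : l ≤ ε / 2 := min_le_left _ _
  set δ := volume (closedBall (0 : Sp n) (l / 2)) with hδ
  have hδpos : 0 < δ := measure_closedBall_pos _ _ (by positivity)
  have hBfin : ∀ ρ, volume (closedBall (0 : Sp n) ρ) ≠ ∞ := fun ρ =>
    (isCompact_closedBall _ _).measure_lt_top.ne
  -- choose η
  have hlim := tendsto_measure_cthickening_of_isCompact (μ := (volume : Measure (Sp n)))
    (isCompact_closedBall (0 : Sp n) r)
  have hev : ∀ᶠ η in 𝓝 (0 : ℝ), volume (cthickening η (closedBall (0 : Sp n) r)) <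
      volume (closedBall (0 : Sp n) r) + δ :=
    hlim.eventually (gt_mem_nhds (ENNReal.lt_add_right (hBfin r) hδpos.ne'))
  obtain ⟨η0, hη0, hη0'⟩ := Metric.eventually_nhds_iff.1 hev
  set η : ℝ := min (η0 / 2) (ε / 2) with hη
  have hηpos : 0 < η := lt_min (by linarith) (by linarith)
  have hηv : volume (closedBall (0 : Sp n) (r + η)) < volume (closedBall (0 : Sp n) r) + δ := by
    have h1 := hη0' (y := η) (by
      rw [Real.dist_eq, sub_zero, abs_of_pos hηpos]
      have := min_le_left (η0 / 2) (ε / 2)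
      linarith)
    rwa [cthickening_closedBall hηpos.le hr, add_comm η r] at h1
  have hηε : η ≤ ε / 2 := min_le_right _ _
  obtain ⟨j, hj⟩ := (hconv.eventually (gt_mem_nhds hηpos)).exists
  have hsub1 : iter u E (φ j) ⊆ closedBall 0 (r + η) := by
    intro x hx
    obtain ⟨y, hy, hxy⟩ := exists_dist_lt_of_hausdorffDist_lt hx hj
      (hausdorffEDist_ne_top_of_nonempty_of_bounded (hne _) ⟨0, by simp [hr]⟩
        (hcomp _).isBounded isBounded_closedBall)
    rw [mem_closedBall, dist_zero_right] at hy ⊢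
    calc ‖x‖ = ‖y + (x - y)‖ := by rw [add_sub_cancel]
      _ ≤ ‖y‖ + ‖x - y‖ := norm_add_le _ _
      _ ≤ r + η := by rw [dist_eq_norm] at hxy; linarith
  have hdiff : volume (closedBall 0 r \ iter u E (φ j)) < δ := by
    -- |B \ F| = |B| - |B ∩ F| and |F \ B| = |F| - |B ∩ F|
    have hFm := (hcomp (φ j)).measurableSet
    have h1 := measure_inter_add_sdiff (μ := (volume : Measure (Sp n)))
      (closedBall (0 : Sp n) r) hFm
    have h2 := measure_inter_add_sdiff (μ := (volume : Measure (Sp n)))
      (iter u E (φ j)) (measurableSet_closedBall (x := (0 : Sp n)) (ε := r))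
    rw [hv, inter_comm] at h2
    have h3 : volume (closedBall 0 r \ iter u E (φ j)) = volume (iter u E (φ j) \ closedBall 0 r) := by
      have h4 := h1.trans h2.symm
      have hfin : volume (closedBall 0 r ∩ iter u E (φ j)) ≠ ∞ :=
        ((measure_mono inter_subset_left).trans_lt (hBfin r).lt_top).ne
      exact (ENNReal.add_right_inj hfin).1 h4
    rw [h3]
    have h5 : volume (iter u E (φ j) \ closedBall 0 r) ≤
        volume (closedBall (0 : Sp n) (r + η) \ closedBall 0 r) :=
      measure_mono (sdiff_subset_sdiff_left hsub1)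
    refine h5.trans_lt ?_
    rw [measure_sdiff (closedBall_subset_closedBall (by linarith))
      measurableSet_closedBall.nullMeasurableSet (hBfin r)]
    exact ENNReal.sub_lt_of_lt_add (measure_mono (closedBall_subset_closedBall (by linarith)))
      (by rw [add_comm δ]; exact hηv)
  refine ⟨φ j, fun i hi => ?_⟩
  obtain ⟨k, rfl⟩ := Nat.exists_eq_add_of_le hi
  rw [Real.dist_eq, sub_zero, abs_of_nonneg hausdorffDist_nonneg]
  have hmain : hausdorffDist (iter u E (φ j + k)) (closedBall 0 r) ≤ ε / 2 := by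
    apply hausdorffDist_le_of_mem_dist (by linarith)
    · intro x hx
      have h1 := hout _ _ k hsub1 hx
      rw [mem_closedBall, dist_zero_right] at h1
      by_cases h2 : ‖x‖ ≤ r
      · exact ⟨x, by simpa using h2, by rw [dist_self]; linarith⟩
      · push Not at h2
        have hxpos : 0 < ‖x‖ := hrpos.trans h2
        refine ⟨(r / ‖x‖) • x, ?_, ?_⟩
        · rw [mem_closedBall, dist_zero_right, norm_smul, Real.norm_eq_abs,
            abs_of_nonneg (by positivity), div_mul_cancel₀ _ hxpos.ne']
        · rw [dist_eq_norm]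
          have h3 : x - (r / ‖x‖) • x = (1 - r / ‖x‖) • x := by rw [sub_smul, one_smul]
          rw [h3, norm_smul, Real.norm_eq_abs, abs_of_nonneg (by
            rw [sub_nonneg, div_le_one hxpos]; exact h2.le), sub_mul,
            div_mul_cancel₀ _ hxpos.ne']
          linarith
    · intro x hx
      rw [mem_closedBall, dist_zero_right] at hx
      set c : Sp n := (1 - l / (2 * r)) • x with hc
      have hfrac : l / (2 * r) ≤ 1 / 2 := by
        rw [div_le_div_iff₀ (by positivity) (by norm_num)]; linarith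
      have hfrac0 : 0 ≤ l / (2 * r) := by positivity
      have hcn : ‖c‖ ≤ r - l / 2 := by
        rw [hc, norm_smul, Real.norm_eq_abs, abs_of_nonneg (by linarith)]
        calc (1 - l / (2 * r)) * ‖x‖ ≤ (1 - l / (2 * r)) * r :=
              mul_le_mul_of_nonneg_left hx (by linarith)
          _ = r - l / 2 := by field_simp
      have hcx : dist x c ≤ l / 2 := by
        rw [dist_eq_norm, hc, sub_smul, one_smul, sub_sub_cancel, norm_smul, Real.norm_eq_abs,
          abs_of_nonneg hfrac0]
        calc l / (2 * r) * ‖x‖ ≤ l / (2 * r) * r := mul_le_mul_of_nonneg_left hx hfrac0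
          _ = l / 2 := by field_simp
      have hsubB : closedBall c (l / 2) ⊆ closedBall (0 : Sp n) r := by
        apply closedBall_subset_closedBall'
        rw [dist_zero_right]; linarith
      have hex : ∃ y ∈ closedBall c (l / 2), y ∈ iter u E (φ j + k) := by
        by_contra hcon
        push Not at hcon
        have h1 : closedBall c (l / 2) ⊆ closedBall 0 r \ iter u E (φ j + k) :=
          fun y hy => ⟨hsubB hy, hcon y hy⟩
        have h2 := (measure_mono h1).trans (hin (φ j) k)
        have h3 : volume (closedBall c (l / 2)) = δ := by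
          rw [hδ, Measure.addHaar_closedBall_center]
        rw [h3] at h2
        exact absurd hdiff (not_lt.2 h2)
      obtain ⟨y, hy, hyE⟩ := hex
      refine ⟨y, hyE, ?_⟩
      have h4 : dist y c ≤ l / 2 := hy
      calc dist x y ≤ dist x c + dist c y := dist_triangle _ _ _
        _ ≤ l / 2 + l / 2 := add_le_add hcx (by rwa [dist_comm])
        _ ≤ ε / 2 := by linarith
  linarith

end Pool.Agent.Results.MP_c699aa_gt.FullConvergence
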